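import Pool.Agent.H60.Sk.Pull
import Pool.Agent.H60.Sk.Mod
import Pool.Agent.H60.Sz.Main
import Pool.Agent.H60.Sy.ConvS

/-!
Symplectic forms on `ℝ²ⁿ` that are standard off a compact set: the form is globally standard as soon
as the core of one Liouville domain is displaceable, or is small, or has a neighbourhood that is
immersed in the standard space with small double points on the core.
-/

set_option autoImplicit false

open scoped Topology ENNReal
open Set Metric MeasureTheory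

namespace Pool.Agent.Results.MP_39f516_gt.LiouvilleCore

/-- `ℝ²ⁿ` with coordinates `(x, y)`. -/
abbrev E (n : ℕ) : Type := (Fin n → ℝ) × (Fin n → ℝ)

/-- Two-forms on `ℝ²ⁿ`. -/
abbrev Form (n : ℕ) : Type := E n → ContinuousAlternatingMap ℝ (E n) ℝ (Fin 2)

/-- One-forms on `ℝ²ⁿ`. -/
abbrev OneForm (n : ℕ) : Type := E n → (E n →L[ℝ] ℝ)

/-- The standard form `ω₀ = ∑ dxᵢ ∧ dyᵢ`. -/
def stdForm (n : ℕ) (v w : E n) : ℝ := ∑ i, (v.1 i * w.2 i - v.2 i * w.1 i)

/-- The derivative of the form `ω` at `x` in the direction `u`, evaluated at `(v, w)`. -/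
noncomputable def dForm {n : ℕ} (ω : Form n) (x u v w : E n) : ℝ := fderiv ℝ ω x u ![v, w]

/-- Smooth forms. -/
def IsSmoothForm {n : ℕ} (ω : Form n) : Prop := ContDiff ℝ ((⊤ : ℕ∞) : WithTop ℕ∞) ω

/-- Closed forms: `dω = 0`. -/
def IsClosedForm {n : ℕ} (ω : Form n) : Prop :=
  ∀ x u v w : E n, dForm ω x u v w - dForm ω x v u w + dForm ω x w u v = 0

/-- Nondegenerate forms. -/
def IsNondegenerate {n : ℕ} (ω : Form n) : Prop :=
  ∀ x v : E n, v ≠ 0 → ∃ w : E n, ω x ![v, w] ≠ 0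

/-- Symplectic forms: smooth, closed and nondegenerate. -/
def IsSymplectic {n : ℕ} (ω : Form n) : Prop :=
  IsSmoothForm ω ∧ IsClosedForm ω ∧ IsNondegenerate ω

/-- `ω` agrees with the standard form off `K`. -/
def StandardOff {n : ℕ} (ω : Form n) (K : Set (E n)) : Prop :=
  ∀ x ∉ K, ∀ v w : E n, ω x ![v, w] = stdForm n v w

/-- `f` is smooth on `U`. -/
def SmoothOn {n : ℕ} (f : E n → E n) (U : Set (E n)) : Prop :=
  ContDiffOn ℝ ((⊤ : ℕ∞) : WithTop ℕ∞) f U

/-- The derivative of `f` at `x` in the direction `v`. -/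
noncomputable def deriv {n : ℕ} (f : E n → E n) (x v : E n) : E n := fderiv ℝ f x v

/-- `f` pulls the standard form back to `ω` at the points of `U`. -/
def PullsBack {n : ℕ} (f : E n → E n) (ω : Form n) (U : Set (E n)) : Prop :=
  ∀ x ∈ U, ∀ v w : E n, stdForm n (deriv f x v) (deriv f x w) = ω x ![v, w]

/-- `f` is smooth near `C` and pulls the standard form back to `ω` near `C`. -/
def ImmersesNear {n : ℕ} (ω : Form n) (C : Set (E n)) (f : E n → E n) : Prop :=
  ∃ U : Set (E n), IsOpen U ∧ C ⊆ U ∧ SmoothOn f U ∧ PullsBack f ω U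

/-- Some open neighbourhood of `C` in `(ℝ²ⁿ, ω)` embeds symplectically in `(ℝ²ⁿ, ω₀)`. -/
def EmbedsNear {n : ℕ} (ω : Form n) (C : Set (E n)) : Prop :=
  ∃ (f : E n → E n) (U : Set (E n)), IsOpen U ∧ C ⊆ U ∧ InjOn f U ∧ ImmersesNear ω U f

/-- `(ℝ²ⁿ, ω)` is symplectomorphic to `(ℝ²ⁿ, ω₀)`. -/
def GloballyStandard {n : ℕ} (ω : Form n) : Prop :=
  ∃ f g : E n → E n, SmoothOn f univ ∧ SmoothOn g univ ∧
    (∀ x, g (f x) = x) ∧ (∀ y, f (g y) = y) ∧ PullsBack f ω univ

/-- The derivative of the one-form `lam` at `x` in the direction `v`, evaluated at `w`. -/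
noncomputable def dOne {n : ℕ} (lam : OneForm n) (x v w : E n) : ℝ := fderiv ℝ lam x v w

/-- Smooth one-forms. -/
def IsSmoothOneForm {n : ℕ} (lam : OneForm n) : Prop := ContDiff ℝ ((⊤ : ℕ∞) : WithTop ℕ∞) lam

/-- The derivative of the function `H` at `x` in the direction `u`. -/
noncomputable def slope {n : ℕ} (H : E n → ℝ) (x u : E n) : ℝ := fderiv ℝ H x u

/-- Smooth functions. -/
def IsSmoothFunction {n : ℕ} (H : E n → ℝ) : Prop := ContDiff ℝ ((⊤ : ℕ∞) : WithTop ℕ∞) H

/-- `d lam = ω`. -/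
def IsPrimitive {n : ℕ} (ω : Form n) (lam : OneForm n) : Prop :=
  ∀ x v w : E n, dOne lam x v w - dOne lam x w v = ω x ![v, w]

/-- `u` is the Liouville vector at `x`: `ω (u, ·) = lam`. -/
def IsLiouvilleVector {n : ℕ} (ω : Form n) (lam : OneForm n) (x u : E n) : Prop :=
  ∀ v : E n, ω x ![u, v] = lam x v

/-- Complete integral curves of the Liouville field. -/
def IsLine {n : ℕ} (ω : Form n) (lam : OneForm n) (γ : ℝ → E n) : Prop :=
  ∀ t, ∃ u : E n, HasDerivAt γ u t ∧ IsLiouvilleVector ω lam (γ t) u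

/-- The set `{H < m}` contains a compact star-shaped set which contains `K`. -/
def Surrounds {n : ℕ} (H : E n → ℝ) (m : ℝ) (K : Set (E n)) : Prop :=
  ∃ S : Set (E n), IsCompact S ∧ (∃ a ∈ S, StarConvex ℝ a S) ∧ K ⊆ S ∧ ∀ x ∈ S, H x < m

/-- Liouville domains around `K`: `lam` is a smooth one-form with `d lam = ω`, the set `{H ≤ m}` is
compact, `H` is smooth and increases along the Liouville vectors on `{H = m}`, and `{H < m}`
surrounds `K`. -/
def IsDomain {n : ℕ} (ω : Form n) (K : Set (E n)) (lam : OneForm n) (H : E n → ℝ) (m : ℝ) : Prop :=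
  IsSmoothOneForm lam ∧ IsPrimitive ω lam ∧ IsSmoothFunction H ∧ IsCompact {x | H x ≤ m} ∧
    (∀ x u : E n, H x = m → IsLiouvilleVector ω lam x u → 0 < slope H x u) ∧ Surrounds H m K

/-- The core of the domain: the points on complete integral curves of the Liouville field that stay
in the domain. -/
def core {n : ℕ} (ω : Form n) (lam : OneForm n) (H : E n → ℝ) (m : ℝ) : Set (E n) :=
  {x | ∃ γ : ℝ → E n, γ 0 = x ∧ IsLine ω lam γ ∧ ∀ t, H (γ t) ≤ m}

/-- `j` preserves `ω` at the points of `U`. -/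
def Preserves {n : ℕ} (ω : Form n) (j : E n → E n) (U : Set (E n)) : Prop :=
  ∀ x ∈ U, ∀ v w : E n, ω (j x) ![deriv j x v, deriv j x w] = ω x ![v, w]

/-- `j` is smooth near `C` and preserves `ω` near `C`. -/
def PreservesNear {n : ℕ} (ω : Form n) (C : Set (E n)) (j : E n → E n) : Prop :=
  ∃ U : Set (E n), IsOpen U ∧ C ⊆ U ∧ SmoothOn j U ∧ Preserves ω j U

/-- Diffeomorphisms of `ℝ²ⁿ` that preserve `ω`. -/
def IsSymplecto {n : ℕ} (ω : Form n) (j : E n → E n) : Prop :=
  SmoothOn j univ ∧ (∃ k : E n → E n, SmoothOn k univ ∧ (∀ x, k (j x) = x) ∧ ∀ y, j (k y) = y) ∧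
    Preserves ω j univ

/-- Some diffeomorphism that preserves `ω` maps `C` off `C`. -/
def Displaceable {n : ℕ} (ω : Form n) (C : Set (E n)) : Prop :=
  ∃ j : E n → E n, IsSymplecto ω j ∧ ∀ x ∈ C, j x ∉ C

/-- Null sets for the `2n`-dimensional Hausdorff measure. -/
def IsNull {n : ℕ} (s : Set (E n × E n)) : Prop :=
  Measure.hausdorffMeasure ((2 * n : ℕ) : ℝ) s = 0

/-- Every pair `x ≠ y` of points of `Z` with `f x = f y` has a neighbourhood whose intersection with
`Z × Z` is null for the `2n`-dimensional Hausdorff measure. -/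
def SmallDoublePoints {n : ℕ} (f : E n → E n) (Z : Set (E n)) : Prop :=
  ∀ x ∈ Z, ∀ y ∈ Z, x ≠ y → f x = f y → ∃ W ∈ 𝓝 ((x, y) : E n × E n), IsNull (W ∩ Z ×ˢ Z)

/-- Every pair `x`, `y` of points of `Z` with `j x = y` has a neighbourhood whose intersection with
`Z × Z` is null for the `2n`-dimensional Hausdorff measure. -/
def SmallIntersections {n : ℕ} (j : E n → E n) (Z : Set (E n)) : Prop :=
  ∀ x ∈ Z, ∀ y ∈ Z, j x = y → ∃ W ∈ 𝓝 ((x, y) : E n × E n), IsNull (W ∩ Z ×ˢ Z)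

/-- Every compact set has a neighbourhood that embeds. -/
def CompactsEmbed {n : ℕ} (ω : Form n) : Prop :=
  ∀ C : Set (E n), IsCompact C → EmbedsNear ω C

/-- Some compact star-shaped set containing `K` has a neighbourhood that embeds. -/
def StarEmbeds {n : ℕ} (ω : Form n) (K : Set (E n)) : Prop :=
  ∃ S : Set (E n), IsCompact S ∧ (∃ a ∈ S, StarConvex ℝ a S) ∧ K ⊆ S ∧ EmbedsNear ω S

/-- Every compact set is displaceable. -/
def CompactsDisplaceable {n : ℕ} (ω : Form n) : Prop :=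
  ∀ C : Set (E n), IsCompact C → Displaceable ω C

/-- The core of every Liouville domain around `K` has a neighbourhood that embeds. -/
def CoresEmbed {n : ℕ} (ω : Form n) (K : Set (E n)) : Prop :=
  ∀ (lam : OneForm n) (H : E n → ℝ) (m : ℝ), IsDomain ω K lam H m →
    EmbedsNear ω (core ω lam H m)

/-- Near the core of some Liouville domain around `K` there is an immersion in the standard space with
small double points on the core. -/
def ImmersedCore {n : ℕ} (ω : Form n) (K : Set (E n)) : Prop :=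
  ∃ (lam : OneForm n) (H : E n → ℝ) (m : ℝ) (f : E n → E n), IsDomain ω K lam H m ∧
    ImmersesNear ω (core ω lam H m) f ∧ SmallDoublePoints f (core ω lam H m)

/-- Near the core of some Liouville domain around `K` there is an immersion in `(ℝ²ⁿ, ω)` with small
double points on the core and small intersections with the core. -/
def MovedCore {n : ℕ} (ω : Form n) (K : Set (E n)) : Prop :=
  ∃ (lam : OneForm n) (H : E n → ℝ) (m : ℝ) (j : E n → E n), IsDomain ω K lam H m ∧
    PreservesNear ω (core ω lam H m) j ∧ SmallDoublePoints j (core ω lam H m) ∧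
    SmallIntersections j (core ω lam H m)

/-- The core of some Liouville domain around `K` is displaceable. -/
def DisplaceableCore {n : ℕ} (ω : Form n) (K : Set (E n)) : Prop :=
  ∃ (lam : OneForm n) (H : E n → ℝ) (m : ℝ), IsDomain ω K lam H m ∧
    Displaceable ω (core ω lam H m)

/-- The product of the core of some Liouville domain around `K` with itself is null. -/
def NullCore {n : ℕ} (ω : Form n) (K : Set (E n)) : Prop :=
  ∃ (lam : OneForm n) (H : E n → ℝ) (m : ℝ), IsDomain ω K lam H m ∧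
    IsNull (core ω lam H m ×ˢ core ω lam H m)

/-- The core of some Liouville domain around `K` is a point. -/
def PointCore {n : ℕ} (ω : Form n) (K : Set (E n)) : Prop :=
  ∃ (lam : OneForm n) (H : E n → ℝ) (m : ℝ) (p : E n), IsDomain ω K lam H m ∧
    core ω lam H m = {p}

/-- For a symplectic form `ω` which is standard off a compact set `K` of `ℝ²ⁿ`, `n ≥ 2`, the ten
conditions are equivalent. -/
theorem result (n : ℕ) (hn : 2 ≤ n) (ω : Form n) (hω : IsSymplectic ω) (K : Set (E n))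
    (hK : IsCompact K) (hstd : StandardOff ω K) :
    List.TFAE [GloballyStandard ω, CompactsEmbed ω, StarEmbeds ω K, CompactsDisplaceable ω,
      CoresEmbed ω K, ImmersedCore ω K, MovedCore ω K, DisplaceableCore ω K, NullCore ω K,
      PointCore ω K] := by
  obtain ⟨κ, hκ, hT⟩ := Pool.Agent.H60.Sy.exists_symp hω.1 hω.2.1 hω.2.2
  have hom : ∀ v w : E n, Pool.Agent.H60.Sy.om0 n v w = stdForm n v w := fun v w =>
    Pool.Agent.H60.Sy.om0_apply v w
  have hκK : ∀ x ∉ K, κ x = Pool.Agent.H60.Sy.om0 n := by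
    intro x hx
    refine ContinuousLinearMap.ext fun v => ContinuousLinearMap.ext fun w => ?_
    rw [hT, hom]
    exact hstd x hx v w
  obtain ⟨r₀, hr₀⟩ := hK.isBounded.subset_closedBall 0
  obtain ⟨r, hrdef⟩ : ∃ r : ℝ, r = max r₀ 0 := ⟨_, rfl⟩
  have hr0 : 0 ≤ r := by rw [hrdef]; exact le_max_right _ _
  have hr : K ⊆ closedBall (0 : E n) r :=
    hr₀.trans (closedBall_subset_closedBall (by rw [hrdef]; exact le_max_left _ _))
  have hS : IsCompact (closedBall (0 : E n) r) ∧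
      (∃ a ∈ closedBall (0 : E n) r, StarConvex ℝ a (closedBall (0 : E n) r)) ∧
      K ⊆ closedBall (0 : E n) r :=
    ⟨isCompact_closedBall _ _, ⟨0, mem_closedBall_self hr0,
      (convex_closedBall _ _).starConvex (mem_closedBall_self hr0)⟩, hr⟩
  have him : ∀ (C : Set (E n)) (φ : E n → E n), ImmersesNear ω C φ →
      ∃ U : Set (E n), Pool.Agent.H60.Sk.Im κ U φ ∧ C ⊆ U := by
    rintro C φ ⟨U, hU, hCU, hs, hp⟩
    exact ⟨U, ⟨hU, hs, fun x hx v w => by rw [hom, hT]; exact hp x hx v w⟩, hCU⟩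
  have hsk : ∀ (lam : OneForm n) (H : E n → ℝ) (m : ℝ) (a : E n),
      Pool.Agent.H60.Sk.Dl κ lam H m a → a ∈ core ω lam H m := by
    rintro lam H m a ⟨γ, h1, h2, h3⟩
    refine ⟨γ, h1, fun t => ?_, h3⟩
    obtain ⟨u, hu, hv⟩ := h2 t
    exact ⟨u, hu, fun v => by rw [← hT]; exact hv v⟩
  have hfin : Module.finrank ℝ (Pool.Agent.H60.Sy.EE n) = 2 * n := by
    rw [Module.finrank_prod, Module.finrank_fin_fun]; ring
  obtain ⟨mu, l1, l2, l3⟩ := Pool.Agent.H60.Sk.exists_prim hn hκ (r := r)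
    (fun x hx => hκK x fun h => hx (hr h))
  have hdom : ∀ (lam : OneForm n) (H : E n → ℝ) (m : ℝ), IsDomain ω K lam H m →
      Pool.Agent.H60.Sk.Dom κ lam mu H m r := by
    rintro lam H m ⟨h1, h2, h3, h4, h5, _⟩
    refine ⟨hκ, h1, fun x => ?_, l1, l2, l3, h3, h4,
      fun x hx => h5 x _ hx fun v => by rw [← hT, Pool.Agent.H60.Sk.k_lf hκ]⟩
    refine ContinuousLinearMap.ext fun v => ContinuousLinearMap.ext fun w => ?_
    rw [Pool.Agent.H60.Sy.dd_apply, hT]
    exact h2 x v w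
  have hstar : ∀ (lam : OneForm n) (H : E n → ℝ) (m : ℝ) (ψ : E n → E n), IsDomain ω K lam H m →
      Pool.Agent.H60.Sk.Im κ {x | H x < m} ψ → InjOn ψ {x | H x < m} → StarEmbeds ω K := by
    rintro lam H m ψ ⟨_, _, _, _, _, S, h1, h2, h3, h4⟩ hψ hinj
    exact ⟨S, h1, h2, h3, ψ, {x | H x < m}, hψ.op, fun x hx => h4 x hx, hinj, {x | H x < m}, hψ.op,
      Subset.rfl, hψ.sm, fun x hx v w => by
        unfold deriv
        rw [← hom, hψ.pb x hx, hT]⟩
  have hex : ∃ (H : E n → ℝ) (m : ℝ), IsDomain ω K mu H m := by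
    obtain ⟨M, hM⟩ := (isCompact_closedBall (0 : E n) r).bddAbove_image
      (Pool.Agent.H60.Sk.contDiff_sq (n := n)).continuous.continuousOn
    have hM' : ∀ x ∈ closedBall (0 : E n) r, Pool.Agent.H60.Sk.sq x ≤ M :=
      fun x hx => hM ⟨x, hx, rfl⟩
    refine ⟨Pool.Agent.H60.Sk.sq, M + 1, l1, fun x v w => ?_, Pool.Agent.H60.Sk.contDiff_sq,
      Pool.Agent.H60.Sk.isCompact_sq _, fun x u hx hu => ?_, closedBall (0 : E n) r, hS.1, hS.2.1,
      hS.2.2, fun x hx => ?_⟩
    · unfold dOne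
      rw [← Pool.Agent.H60.Sy.dd_apply, l2, hT]
    · have hxr : x ∉ closedBall (0 : E n) r := by
        intro hxr
        have := hM' x hxr
        linarith
      have e : u = (1 / 2 : ℝ) • x := by
        rw [← l3 x hxr]
        exact Pool.Agent.H60.Sk.eq_lf hκ fun v => by rw [hT]; exact hu v
      have h0 : 0 ≤ M := by
        have h1 := hM' 0 (mem_closedBall_self hr0)
        have h2 : Pool.Agent.H60.Sk.sq (0 : E n) = 0 := by
          simp [Pool.Agent.H60.Sk.sq]
        linarith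
      unfold slope
      rw [e, map_smul, Pool.Agent.H60.Sk.fderiv_sq, hx, smul_eq_mul]
      linarith
    · have := hM' x hx
      linarith
  obtain ⟨H₀, m₀, hD₀⟩ := hex
  have hdif : ∀ J : Pool.Agent.H60.Sy.Dif (E n), Pool.Agent.H60.Sk.Sd κ J →
      IsSymplecto ω (fun x => J x) := by
    intro J hJ
    refine ⟨J.sm.contDiffOn, ⟨fun x => J.symm x, J.smi.contDiffOn, fun x => J.symm_apply_apply x,
      fun x => J.apply_symm_apply x⟩, fun x _ v w => ?_⟩
    unfold deriv
    rw [← hT, ← hT]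
    exact hJ x v w
  have hglob : GloballyStandard ω → ∃ F : Pool.Agent.H60.Sy.Dif (E n),
      ∀ x v w, Pool.Agent.H60.Sy.om0 n (fderiv ℝ F x v) (fderiv ℝ F x w) = κ x v w := by
    rintro ⟨Φ, Ψ, h1, h2, h3, h4, h6⟩
    obtain ⟨F, hF⟩ : ∃ F : Pool.Agent.H60.Sy.Dif (E n), ∀ x, F x = Φ x :=
      ⟨Pool.Agent.H60.Sy.Dif.mk' Φ Ψ (contDiffOn_univ.1 h1) (contDiffOn_univ.1 h2) h3 h4,
        fun _ => rfl⟩
    have hFΦ : (fun x => F x) = Φ := funext hF
    refine ⟨F, fun x v w => ?_⟩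
    have e : fderiv ℝ F x = fderiv ℝ Φ x := by rw [← hFΦ]
    rw [e, hom, hT]
    exact h6 x (mem_univ x) v w
  have h12 : GloballyStandard ω → ∀ C : Set (E n), EmbedsNear ω C := by
    rintro ⟨Φ, Ψ, h1, _, h3, _, h5⟩ C
    exact ⟨Φ, univ, isOpen_univ, subset_univ _, (Function.LeftInverse.injective h3).injOn,
      univ, isOpen_univ, Subset.rfl, h1, h5⟩
  tfae_have 1 → 2 := fun h C _ => h12 h C
  tfae_have 2 → 3 := fun h => ⟨closedBall 0 r, hS.1, hS.2.1, hS.2.2, h _ hS.1⟩
  tfae_have 3 → 1 := by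
    rintro ⟨S, hS, ⟨a, ha, hstar⟩, hKS, φ, U, hU, hSU, hinj, hφ⟩
    obtain ⟨U', hI, hUU'⟩ := him _ φ hφ
    obtain ⟨F, hF⟩ := Pool.Agent.H60.Sz.main_star hn hκ hS ha hstar
      (fun x hx => hκK x fun h => hx (hKS h)) hU hSU (hI.sm.mono hUU') hinj
      (fun x hx v w => hI.pb x (hUU' hx) v w)
    refine ⟨F, F.symm, F.sm.contDiffOn, F.smi.contDiffOn, fun x => F.symm_apply_apply x,
      fun x => F.apply_symm_apply x, fun x _ v w => ?_⟩
    have h := congrFun hF x
    have h2 := congrArg (fun A : Pool.Agent.H60.Sy.B2 (E n) => A v w) h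
    simp only [Pool.Agent.H60.Sy.pb_apply, hT] at h2
    rw [← hom]; exact h2
  tfae_have 1 → 4 := by
    intro h C hC
    obtain ⟨F, hF⟩ := hglob h
    obtain ⟨J, hJ, hJC⟩ := Pool.Agent.H60.Sk.all_disp hn F hF hC
    exact ⟨fun x => J x, hdif J hJ, hJC⟩
  tfae_have 4 → 8 := by
    intro h
    obtain ⟨j, hj, hjC⟩ := h {x | H₀ x ≤ m₀} hD₀.2.2.2.1
    have hsub : ∀ x ∈ core ω mu H₀ m₀, H₀ x ≤ m₀ := by
      rintro x ⟨γ, h1, _, h3⟩
      rw [← h1]
      exact h3 0
    exact ⟨mu, H₀, m₀, hD₀, j, hj, fun x hx hx' => hjC x (hsub x hx) (hsub _ hx')⟩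
  tfae_have 8 → 7 := by
    rintro ⟨lam, H, m, hD, j, ⟨h1, ⟨k, _, h2, _⟩, h3⟩, h4⟩
    exact ⟨lam, H, m, j, hD, ⟨univ, isOpen_univ, subset_univ _, h1, h3⟩,
      fun x _ y _ hne hxy => absurd (Function.LeftInverse.injective h2 hxy) hne,
      fun x hx y hy hxy => absurd (hxy ▸ hy) (h4 x hx)⟩
  tfae_have 7 → 3 := by
    rintro ⟨lam, H, m, j, hD, ⟨U, hU, hZU, hs, hp⟩, h', h⟩
    obtain ⟨ψ, hψ, hψi, hψo⟩ := Pool.Agent.H60.Sk.core_move (hdom lam H m hD) (hsk lam H m)
      (U := U) (φ := j) ⟨hU, hs, fun x hx v w => by rw [hT, hT]; exact hp x hx v w⟩ hZU (by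
        intro x hx y hy hne he
        obtain ⟨W, hW, h0⟩ := h' x hx y hy hne he
        refine ⟨W, hW, ?_⟩
        rw [hfin]
        exact h0) (by
        intro x hx y hy he
        obtain ⟨W, hW, h0⟩ := h x hx y hy he
        refine ⟨W, hW, ?_⟩
        rw [hfin]
        exact h0)
    refine hstar lam H m ψ hD ⟨hψ.op, hψ.sm, fun x hx v w => ?_⟩ hψi
    have h1 : ψ x ∉ K := by
      intro hK'
      obtain ⟨S, _, _, hKS, hSm⟩ := hD.2.2.2.2.2
      exact hψo x hx (hSm _ (hKS hK')).le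
    rw [← hκK (ψ x) h1]
    exact hψ.pb x hx v w
  tfae_have 1 → 5 := fun h lam H m _ => h12 h _
  tfae_have 5 → 6 := by
    intro h
    obtain ⟨φ, U, hU, hCU, hinj, U', hU', hUU', hs, hp⟩ := h mu H₀ m₀ hD₀
    exact ⟨mu, H₀, m₀, φ, hD₀, ⟨U', hU', hCU.trans hUU', hs, hp⟩, fun x hx y hy hne he =>
      absurd (hinj (hCU hx) (hCU hy) he) hne⟩
  tfae_have 6 → 3 := by
    rintro ⟨lam, H, m, φ, hD, hφ, h⟩
    obtain ⟨U, hI, hZU⟩ := him _ φ hφ
    obtain ⟨ψ, hψ, hinj⟩ := Pool.Agent.H60.Sk.core_std (hdom lam H m hD) (hsk lam H m) hI hZU (by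
      intro x hx y hy hne he
      obtain ⟨W, hW, h0⟩ := h x hx y hy hne he
      refine ⟨W, hW, ?_⟩
      rw [hfin]
      exact h0)
    exact hstar lam H m ψ hD hψ hinj
  tfae_have 1 → 10 := by
    intro h
    obtain ⟨F, hpb⟩ := hglob h
    have hc := (Pool.Agent.H60.Sk.contDiff_sq (n := n)).comp F.sm
    obtain ⟨M, hM⟩ := ((isCompact_closedBall (0 : E n) r).union
      (isCompact_singleton (x := F.symm 0))).bddAbove_image hc.continuous.continuousOn
    have hM' : ∀ x ∈ closedBall (0 : E n) r ∪ {F.symm 0}, Pool.Agent.H60.Sk.sq (F x) ≤ M :=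
      fun x hx => hM ⟨x, hx, rfl⟩
    have hs0 : Pool.Agent.H60.Sk.sq (F (F.symm 0)) = 0 := by
      rw [F.apply_symm_apply]
      simp [Pool.Agent.H60.Sk.sq]
    have hM0 : 0 ≤ M := by
      have h1 := hM' (F.symm 0) (Or.inr rfl)
      linarith
    have hcomp : IsCompact {x | Pool.Agent.H60.Sk.sq (F x) ≤ M + 1} := by
      have e : {x | Pool.Agent.H60.Sk.sq (F x) ≤ M + 1}
          = F.symm '' {y | Pool.Agent.H60.Sk.sq y ≤ M + 1} := by
        ext x
        constructor
        · intro h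
          exact ⟨F x, h, F.symm_apply_apply x⟩
        · rintro ⟨y, hy, rfl⟩
          change Pool.Agent.H60.Sk.sq (F (F.symm y)) ≤ M + 1
          rw [F.apply_symm_apply]
          exact hy
      rw [e]
      exact (Pool.Agent.H60.Sk.isCompact_sq _).image F.symm.continuous
    refine ⟨Pool.Agent.H60.Sk.lamP F, fun x => Pool.Agent.H60.Sk.sq (F x), M + 1, F.symm 0,
      ⟨Pool.Agent.H60.Sk.contDiff_lamP F, fun x v w => ?_, hc, hcomp, fun x u hx hu => ?_,
        closedBall (0 : E n) r, hS.1, hS.2.1, hS.2.2, fun x hx => ?_⟩, ?_⟩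
    · unfold dOne
      rw [← Pool.Agent.H60.Sy.dd_apply, Pool.Agent.H60.Sk.dd_lamP, hpb, hT]
    · have h7 := Pool.Agent.H60.Sk.lamP_out F (x := x) (u := u)
        (fun v => by rw [hpb, hT]; exact hu v)
      have hx' : Pool.Agent.H60.Sk.sq (F x) = M + 1 := hx
      unfold slope
      rw [h7, hx']
      linarith
    · have := hM' x (Or.inl hx)
      linarith
    · ext x
      rw [mem_singleton_iff]
      constructor
      · rintro ⟨γ, g1, g2, g3⟩
        have h7 := Pool.Agent.H60.Sk.lamP_line F (γ := γ) (fun t => by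
          obtain ⟨u, hu, hv⟩ := g2 t
          exact ⟨u, hu, fun v => by rw [hpb, hT]; exact hv v⟩) (hcomp.isBounded.subset (by
            rintro _ ⟨t, rfl⟩
            exact g3 t))
        rw [← g1, ← h7, F.symm_apply_apply]
      · rintro rfl
        refine ⟨fun _ => F.symm 0, rfl, fun t => ⟨0, hasDerivAt_const _ _, fun v => ?_⟩,
          fun t => ?_⟩
        · rw [← hT, Pool.Agent.H60.Sk.lamP_apply, F.apply_symm_apply]
          simp
        · change Pool.Agent.H60.Sk.sq (F (F.symm 0)) ≤ M + 1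
          rw [hs0]
          linarith
  tfae_have 10 → 9 := by
    rintro ⟨lam, H, m, p, hD, h⟩
    refine ⟨lam, H, m, hD, ?_⟩
    rw [h, singleton_prod_singleton]
    unfold IsNull
    refine hausdorffMeasure_of_dimH_lt (d := ((2 * n : ℕ) : NNReal)) ?_
    rw [dimH_singleton]
    have h0 : 0 < 2 * n := by omega
    exact_mod_cast h0
  tfae_have 9 → 7 := by
    rintro ⟨lam, H, m, hD, h⟩
    refine ⟨lam, H, m, fun x => x, hD, ⟨univ, isOpen_univ, subset_univ _, contDiffOn_id,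
      fun x _ v w => ?_⟩, fun x _ y _ hne hxy => absurd hxy hne,
      fun x _ y _ _ => ⟨univ, Filter.univ_mem, ?_⟩⟩
    · have e : fderiv ℝ (fun x : E n => x) x = ContinuousLinearMap.id ℝ _ := fderiv_fun_id
      unfold deriv
      rw [e]
      rfl
    · rw [univ_inter]
      exact h
  tfae_finish

end Pool.Agent.Results.MP_39f516_gt.LiouvilleCore
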